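import Pool.Agent.R324.BTop

/-!
# Finite generation in the weight `dim` for blow-ups of projective spaces, dimension by dimension

Let `S` be a class of regular connected schemes proper over `ℤ`, flat or not, for example all those
which are projective over `ℤ`. Let `H^p(X, n)` be the étale motivic cohomology `H^p(X_et, ℤ(n))`. Q1 for
`X` says that `H^p(X, d)` is finitely generated for `0 ≤ p ≤ 2 d`, `d = dim X`. We assume the projective
bundle formula and the blow-up formula in the weights `n ≥ dim`, the finite generation for `Spec ℤ`
(known), and the fact that `H^p(X, d)` is a rational vector space for `p < 0` (see the problem file). A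
tower is a scheme which is obtained from a projective space over `ℤ` by finitely many blow-ups along
schemes in `S`. For `W` in `S` let `Window W N` be the statement: for all weights `dim W < n < N` and all
`2 n - 2 N ≤ p ≤ 2 n` the group `H^p(W, n)` is finitely generated, and zero if moreover `p < 0`.

**Theorem.** (1) Let `B` be the blow-up of `X` along `W`. Q1 for `B` is equivalent to Q1 for `X` and
`Window W (dim X)`. If `X = ℙ^m` over `ℤ`, Q1 for `B` is equivalent to `Window W (m + 1)`.

(2) For one scheme `W` in `S` the following are equivalent: (a) for all `n > dim W` and all `p ≤ 2 n` the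
group `H^p(W, n)` is finitely generated, and zero for `p < 0`; (b) Q1 for all blow-ups of projective
spaces over `ℤ` along `W`; (c) for every `K` there is a blow-up `B` of a projective space over `ℤ` along
`W`, of some dimension `d ≥ K`, such that `H^p(B, d)` is finitely generated for `2 d - K ≤ p ≤ 2 d`.

(3) For every `N`: Q1 for all towers of dimension `N` is equivalent to `Window W N` for all centres `W` of
blow-ups of towers of dimension `N`.

(4) Q1 for all towers is equivalent to (a) for all schemes in `S`.

(5) Using the known finite generation for schemes of dimension `≤ 1` in the weights `> dim`: Q1 holds for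
all towers of dimension `≤ 3`, and Q1 for all towers of dimension `4` is equivalent to the following
statement for all centres `W` of dimension `2`: `H^p(W, 3)` is finitely generated for `-2 ≤ p ≤ 6`, and
zero for `p = -2, -1`.
-/

set_option autoImplicit false

open Pool.Agent.R387.EM Pool.Agent.R387.EM.Towers Pool.Agent.R324.BT

namespace Pool.Agent.Results.MP_c71c7a_nt.BlowUpsInEachDimension

theorem result {S : VarClass} {D : Data S} (h : IsData D) :
    (OneBlowUp D ∧ OneCentre D) ∧ (∀ W, OneScheme D W) ∧ (∀ N, InDimension D N) ∧ AllTowers D ∧
      (Curves D → Threefolds D ∧ Fourfolds D) :=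
  ⟨⟨oneBlowUp h, oneCentre h⟩, oneScheme h, inDimension h, allTowers h,
    fun H => ⟨threefolds h H, fourfolds h H⟩⟩

end Pool.Agent.Results.MP_c71c7a_nt.BlowUpsInEachDimension
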