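import Pool.Agent.R387.EM.Range

/-!
# The range of degrees in the finite generation conjecture

Let `S` be a class of regular connected schemes proper over `ℤ` which is closed under products with
projective spaces, for example the class of all regular connected proper (or projective) schemes, the
flat ones among them, or the products `ℙ^m × 𝒳`, `m ≥ 0`, for one scheme `𝒳`. Let `H^p(X, n)` be the étale
motivic cohomology `H^p(X_et, ℤ(n))`, `n ≥ dim X`. We assume the projective bundle formula and the
fact that `H^p(X_et, ℤ(d))`, `d = dim X`, is a rational vector space for `p < 0` (see the problem file).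
Q1 for `X` says that `H^p(X, d)` is finitely generated for `0 ≤ p ≤ 2 d`.

**Theorem.** (1) For every `N`, Q1 for all `X` in `S` of dimension `N` is equivalent to the following
statement on all `X` in `S` of dimension `≤ N` and all weights `dim X ≤ n ≤ N`: `H^p(X, n)` is finitely
generated for `2 n - 2 N ≤ p ≤ 2 n`, and it is zero for `2 n - 2 N ≤ p < 0`. For example, Q1 for
`ℙ^m × X` implies `H^p(X, ℚ(d)) = 0` for `-2 m ≤ p < 0`.

(2) Let `φ` be any unbounded function. The groups `H^p(X, d)` are finitely generated for all `X` and all
`2 d - φ(d) ≤ p ≤ 2 d`, `d = dim X`, if and only if for all `X`, all weights `n ≥ dim X` and all `p ≤ 2 n`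
the group `H^p(X, n)` is finitely generated, and zero for `p < 0`.

(3) In particular Q1 for all `X` in `S` is equivalent to the last statement. So the groups in negative
degrees and their vanishing, which are not mentioned in Q1, follow from Q1 for all schemes.
-/

open Pool.Agent.R387.EM Pool.Agent.R387.EM.Range

namespace Pool.Agent.Results.MP_c71c7a_nt.RangeOfDegrees

theorem result {S : VarClass} {D : Data S} (h : IsData D) :
    (∀ N, InDimension D N) ∧ (∀ φ : ℕ → ℕ, ¬ BddAbove (Set.range φ) → NearTop D φ) ∧
      ((∀ X, Q1 D X) ↔ AllWeights D) :=
  ⟨inDimension h, fun _ hφ => nearTop h hφ, q1_iff h⟩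

end Pool.Agent.Results.MP_c71c7a_nt.RangeOfDegrees
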