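import Pool.Agent.R900.FG.Tow

/-!
# Finite generation in the top weight in degrees `0 ≤ i ≤ 2 d`: blow-ups of projective spaces, and Jacobians

`H n i X` is the group `H^i(X_et, ℤ^c(n))` of an arithmetic scheme `X` (separated and of finite type over `ℤ`)
in the weight `n ≤ 0`; for regular `X` of dimension `d` it is `H^(2 d + i)(X_et, ℤ(d - n))`. So the groups
`H^p(X_et, ℤ(d))` of the question are the groups of the weight `n = 0`, with `p = 2 d + i`.

`Nice` is a class of regular connected schemes which are projective over `ℤ` and for which the theorem of de
Jong on alterations holds (`HasAlterations`), for example all regular connected projective schemes. A
tower (`IsTower`) is a scheme which is obtained from some projective space over `ℤ` by finitely many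
blow-ups along nice schemes; so it is regular, projective, and flat over `ℤ` with a rational generic fibre.
A Jacobian is the relative Jacobian `J = Pic^0(C / V)`, an abelian scheme over `V`, of a smooth projective
curve `C → V` with geometrically connected fibres and with a section, over a regular, affine,
connected arithmetic scheme `V`.

**Theorem.** The following are equivalent (`TowersAndJacobians`):

1. `H^p(B_et, ℤ(dim B))` is finitely generated for all towers `B` and all `p ≤ 2 dim B`;
2. the same for all towers and `0 ≤ p ≤ 2 dim B`;
3. `H^i(X_et, ℤ^c(n))` is finitely generated for all arithmetic schemes `X`, regular or not, proper or not,
   all `i` and all weights `n < 0`;
4. `H^i(J_et, ℤ^c(-1))` is finitely generated for all Jacobians `J` and all `i`.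

The statement 2 is the question Q1 for the towers. So Q1 for the towers is a statement on abelian schemes in
one negative weight, and it implies the finite generation in the negative degrees `p` for the towers and
the finite generation in all negative weights for all arithmetic schemes.

The idea. The blow-up of a projective space along `Z` contains the groups of `Z` of the weights `-1`, `-2`, ....
So 2 implies the finite generation in negative weights for nice schemes. By alterations one obtains
all arithmetic schemes: an alteration of degree `m` gives `f_* f^* = m`, and the `m`-torsion is finite in the
weights `n < 0`. For the step from 4 to 3, the function field of `X` is the function field of a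
curve over a smaller field; after a finite extension this curve is an open part of the generic fibre
of a curve `C → V` as above. For large `N` the symmetric power `P = Sym^N(C / V)` is a projective bundle over
`J`, and `C` is a direct summand of the sum of `P` and `V` in a suitable sense (`CurveFormula`). The affine
line over `J` reduces the weights `n < -1` to the weight `-1`.
-/

set_option autoImplicit false

namespace Pool.Agent.Results.MP_c71c7a_nt.TowersAndJacobians

open Pool.Agent.R900.FG

/-- The finite generation in the weight of the dimension for all iterated blow-ups of projective spaces
over the integers, the finite generation in all negative weights for all arithmetic schemes, and the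
finite generation in the weight `-1` for all Jacobians of curves are equivalent. -/
theorem result {S : Type} {G : Schemes S} {T : Cohomology S} {W : BlowUps S}
    {Regular Nice : S → Prop} (hG : IsSchemes G) (hT : IsCohomology G T)
    (hA : HasAlterations G T Regular Nice) (hW : HasBlowUps G T W Nice) :
    TowersAndJacobians G T W Nice :=
  towersAndJacobians hG hT hA hW

end Pool.Agent.Results.MP_c71c7a_nt.TowersAndJacobians
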