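import Pool.Agent.R166.SW.Window

/-!
# MP_c71c7a_nt: the upper half of the degrees for complements of elementary arrangements suffices

An elementary arrangement is a finite union of hypersurfaces of the forms `x_i x_j = x_k`,
`x_i + x_j = x_k`, `x_i = 1` in an affine space over `ℤ`. Its complement `compl a` is the spectrum of
`ℤ[x_1, …, x_N, 1/a]`, where `a` is the product of the polynomials `x_i x_j - x_k`, `x_i + x_j - x_k`,
`x_i - 1`: a smooth affine scheme over `ℤ`, open in affine space, of dimension `d = N + 1`.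

`EtTheory` (Pool/Agent/R166/SW/Fg.lean) lists the properties of the groups `H w i X = Hⁱ(X_et, ℤᶜ(-w))`
which are used. For regular `X` of pure dimension `d` this is `H^{2d+i}(X_et, ℤ(d+w))`, and Q1 says that
`H 0 i X` is finitely generated for `-2d ≤ i ≤ 0`, for regular connected proper `X` of dimension `d`.

Let `φ : ℕ → ℕ` be unbounded, for example `φ(d) = d` or `φ(d) = ⌊log log d⌋`.

1. The groups `H^p(U_et, ℤ(d))` are finitely generated for `d - φ(d) ≤ p ≤ 2d` for the complements `U` of
elementary arrangements, `d = dim U`, if and only if the groups `Hⁱ(X_et, ℤᶜ(0))`, `i ≤ 0`, are finitely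
generated for all separated schemes `X` of finite type over `ℤ`. Similarly in the weights `-w ≤ 0` and
the degrees `i ≤ m`.

2. In particular (`φ(d) = d`) the range `0 ≤ p ≤ 2d` of Q1 suffices for the complements `U`.

3. If so, Q1 is true; moreover for all regular separated `X` of finite type over `ℤ`, proper or not, of
dimension `d`, and all `n ≥ d`, the groups `H^p(X_et, ℤ(n))` are finitely generated for `p ≤ 2n` and zero
for `p < 0`.

The proof. That the complements `U` suffice if all degrees `i ≤ m` are allowed is in R166.SW.Fg (after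
helper904). For the range of degrees: `U` is the hyperplane section `x = 1` of `U × 𝔸¹`, whose
complement is again, as `U × 𝔸¹`, a complement of an elementary arrangement. So `Hⁱ(U)` lies in an exact
sequence between `Hⁱ⁻¹(U × (𝔸¹ - 1))` and `Hⁱ(U × 𝔸¹)`. After `k` such steps the group `Hⁱ(U)`
is built from the groups of complements of dimension `d + k` in the degrees `i - k, …, i`.
-/

set_option autoImplicit false

open CategoryTheory AlgebraicGeometry
open Pool.Agent.R904.CU Pool.Agent.R904.EL Pool.Agent.R166.SW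

namespace Pool.Agent.Results.MP_c71c7a_nt.UpperHalfOfArrangements

/-- Q1: for all proper, regular, connected `X` of dimension `d` the groups
`H^p(X_et, ℤ(d)) = H^{p-2d}(X_et, ℤᶜ(0))`, `0 ≤ p ≤ 2d`, are finitely generated. -/
def Q1 (T : EtTheory) : Prop :=
  ∀ (X : Scheme.{0}) (f : X ⟶ Spec (.of ℤ)), IsProper f → ConnectedSpace X →
    (∀ x : X, IsRegularLocalRing (X.presheaf.stalk x)) → ∀ d : ℕ, topologicalKrullDim X = d →
      ∀ i : ℤ, -2 * (d : ℤ) ≤ i → i ≤ 0 → AddGroup.FG (T.H 0 i X)

/-- the statement of Q1, in the same range of degrees, for the complements of elementary arrangements -/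
def Q1Arr (T : EtTheory) : Prop := ∀ (σ : Type) [Fintype σ], ∀ a ∈ elemProds ({1} : Set ℤ) σ,
  ∀ i : ℤ, -2 * ((Fintype.card σ + 1 : ℕ) : ℤ) ≤ i → i ≤ 0 → AddGroup.FG (T.H 0 i (compl a))

/-- For all regular separated schemes `X` of finite type over `ℤ`, of dimension `d`, and all `w ≥ 0`, the
groups `H^{2d+i}(X_et, ℤ(d+w)) = Hⁱ(X_et, ℤᶜ(-w))` are finitely generated for `i ≤ 2w`, and zero for
`i < -2d`. -/
def AllWeights (T : EtTheory) : Prop :=
  ∀ (X : Scheme.{0}) (f : X ⟶ Spec (.of ℤ)), SepFinType ℤ X f →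
    (∀ x : X, IsRegularLocalRing (X.presheaf.stalk x)) → ∀ d : ℕ, topologicalKrullDim X = d →
      ∀ (w : ℕ) (i : ℤ), (i ≤ 2 * (w : ℤ) → AddGroup.FG (T.H w i X)) ∧
        (i < -2 * (d : ℤ) → Subsingleton (T.H w i X))

/-- **Main theorem.** -/
theorem result (T : EtTheory) :
    -- 1.
    (∀ φ : ℕ → ℕ, (∀ B, ∃ d, B ≤ φ d) → ∀ (w : ℕ) (m : ℤ), T.UpperFG φ w m ↔ T.AllFG w m) ∧
    -- 2.
    (Q1Arr T ↔ T.AllFG 0 0) ∧
    -- 3.
    (∀ φ : ℕ → ℕ, (∀ B, ∃ d, B ≤ φ d) → T.UpperFG φ 0 0 → Q1 T ∧ AllWeights T) := by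
  refine ⟨fun φ hφ w m => T.upper_iff hφ w m, ?_, fun φ hφ hU => ?_⟩
  · rw [← T.upper_iff (φ := id) (fun B => ⟨B, le_rfl⟩) 0 0]
    refine ⟨fun h σ _ a ha i h1 h2 => h σ a ha i ?_ h2, fun h σ _ a ha i h1 h2 => h σ a ha i ?_ h2⟩
    · simp only [id] at h1
      linarith
    · simp only [id]
      linarith
  · have h := (T.upper_iff hφ 0 0).1 hU
    refine ⟨fun X f hf _ _ d _ i _ hi => h X f ⟨inferInstance, inferInstance, inferInstance⟩ i hi,
      fun X f hf hX d hd w i => ?_⟩
    have h1 := T.allFG_add 0 0 h w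
    rw [zero_add, zero_add] at h1
    refine ⟨fun hi => h1 X f hf i hi, fun hi => ?_⟩
    exact T.vanish hf hX hd hi (h1 X f hf i (by omega))

end Pool.Agent.Results.MP_c71c7a_nt.UpperHalfOfArrangements
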